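import Pool.Agent.Q189.Trapezoid

/-!
# MP_b5b962_gt: minimal faces over distinct extreme points can meet

The model is a trapezoid in the plane, the simplex is four dimensional.
-/

set_option autoImplicit false

namespace Pool.Agent.Results.MP_b5b962_gt.SharedVertex

open Q189.SimpDefs Q189.SimpBuild Q189.Trapezoid

/-- The minimal face, containing the set `S`, of the simplex with vertices `v 0, ..., v (k - 1)`:
the convex hull of all vertices having a positive barycentric coefficient at some point of `S`. -/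
def minimalFace {V : Type} [AddCommGroup V] [Module ℝ V] {k : ℕ} (v : Fin k → V) (S : Set V) :
    Set V :=
  convexHull ℝ {p | ∃ j, p = v j ∧ ∃ x ∈ S, ∃ w : Fin k → ℝ,
    (∀ i, 0 ≤ w i) ∧ ∑ i, w i = 1 ∧ x = ∑ i, w i • v i ∧ 0 < w j}

/-- **Theorem.** There are a polytope `C` in the plane which is not a simplex, a simplicial
refinement `(T, Ω_T, f, g)` of `(C, Ω_C)` with `T` a four dimensional simplex with vertices
`v 0, ..., v 4`, and two distinct extreme points `a`, `b` of `C` such that the minimal faces of `T`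
containing `f⁻¹(a)` and `f⁻¹(b)` are not disjoint. -/
theorem result : ∃ (C : Set (Fin 2 → ℝ)) (v : Fin 5 → (Fin 5 → ℝ))
    (f : PartialAffineOnto (hull v) C)
    (g : PartialAffineOnto (convexForms (hull v)) (convexForms C)),
    IsPolytope C ∧ ¬ IsSimplex C ∧ IsSimplicialRefinement v C f g ∧
      ∃ a ∈ C.extremePoints ℝ, ∃ b ∈ C.extremePoints ℝ, a ≠ b ∧
        (minimalFace v {x ∈ f.dom | f.toFun x = a} ∩
          minimalFace v {x ∈ f.dom | f.toFun x = b}).Nonempty := by
  refine ⟨img A F, vtx 5, fmap A hA F, gmap A hA F H, polytope, not_simplex, isRef A hA F H,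
    F (A 2), ext_all 2, F (A 3), ext_all 3, fun h => ?_, vtx 5 4, ?_, ?_⟩
  · have := inj h
    simp at this
  · refine subset_convexHull ℝ _ ⟨4, rfl, A 2, ⟨subset_convexHull ℝ _ ⟨2, rfl⟩, rfl⟩, A 2,
      (hA 2).1, (hA 2).2, ?_, ?_⟩
    · funext i
      simp [vtx, Finset.sum_apply, Pi.single_apply]
    · simp [A]
  · refine subset_convexHull ℝ _ ⟨4, rfl, A 3, ⟨subset_convexHull ℝ _ ⟨3, rfl⟩, rfl⟩, A 3,
      (hA 3).1, (hA 3).2, ?_, ?_⟩
    · funext i
      simp [vtx, Finset.sum_apply, Pi.single_apply]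
    · simp [A]

end Pool.Agent.Results.MP_b5b962_gt.SharedVertex
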